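import Pool.Agent.L7h83.HO.Stm

/-!
Project HO (helper83), part SM: on the curve `Re p = 0` of a nonsingular harmonic octic the
derivative `p'` has no zero.
-/

set_option autoImplicit false

open MvPolynomial

namespace Pool.Agent.L7h99.HO

open Pool.Agent.L7h17.OC Pool.Agent.L7h83.HO

/-- the directional derivative of a polynomial -/
lemma hd (F : MvPolynomial (Fin 3) ℝ) (v w : Fin 3 → ℝ) :
    HasDerivAt (fun s : ℝ => eval (fun i => v i + s * w i) F)
      (∑ i, w i * eval v (pderiv i F)) 0 := by
  have hv : (fun i => v i + (0 : ℝ) * w i) = v := by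
    funext i
    ring
  induction F using MvPolynomial.induction_on with
  | C a =>
    simp only [eval_C, pderiv_C, map_zero, mul_zero, Finset.sum_const_zero]
    exact hasDerivAt_const _ _
  | add p q hp hq =>
    have h := hp.add hq
    have e : (∑ i, w i * eval v (pderiv i (p + q))) =
        (∑ i, w i * eval v (pderiv i p)) + ∑ i, w i * eval v (pderiv i q) := by
      rw [← Finset.sum_add_distrib]
      refine Finset.sum_congr rfl fun i _ => ?_
      rw [map_add, map_add]
      ring
    rw [e]
    refine h.congr_of_eventuallyEq (Filter.Eventually.of_forall fun s => ?_)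
    simp only [map_add, Pi.add_apply]
  | mul_X p j hp =>
    have hx : HasDerivAt (fun s : ℝ => v j + s * w j) (w j) 0 := by
      have := ((hasDerivAt_id (0 : ℝ)).mul_const (w j)).const_add (v j)
      simpa using this
    have h := hp.mul hx
    have e : (∑ i, w i * eval v (pderiv i (p * X j))) =
        (∑ i, w i * eval v (pderiv i p)) * (v j + 0 * w j) +
          eval (fun i => v i + (0 : ℝ) * w i) p * w j := by
      rw [hv, Finset.sum_mul]
      have e1 : ∀ i, w i * eval v (pderiv i (p * X j)) =
          w i * eval v (pderiv i p) * (v j + 0 * w j) +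
            (if i = j then eval v p * w j else 0) := by
        intro i
        rw [Derivation.leibniz, pderiv_X]
        by_cases hij : i = j
        · subst hij
          simp
          ring
        · have : (Pi.single i (1 : MvPolynomial (Fin 3) ℝ) : Fin 3 → MvPolynomial (Fin 3) ℝ) j
              = 0 := by
            rw [Pi.single_eq_of_ne (fun h => hij h.symm)]
          rw [this]
          simp [hij]
          ring
      rw [Finset.sum_congr rfl fun i _ => e1 i, Finset.sum_add_distrib,
        Finset.sum_ite_eq' Finset.univ j]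
      simp
    rw [e]
    refine h.congr_of_eventuallyEq (Filter.Eventually.of_forall fun s => ?_)
    simp only [map_mul, eval_X, Pi.mul_apply]

theorem s_SM : SM := by
  intro p F hH hN z hz hp'
  have hF : ∀ x y t : ℝ, eval ![x, y, t] F =
      (∑ j ∈ Finset.range 9, p.coeff j * ((x : ℂ) + y * Complex.I) ^ j * (t : ℂ) ^ (8 - j)).re :=
    hH.2
  have hpe : ∀ w : ℂ, p.eval w = ∑ j ∈ Finset.range 9, p.coeff j * w ^ j := by
    intro w
    exact Polynomial.eval_eq_sum_range' (by rw [hH.1]; norm_num) w
  have hF1 : ∀ x y : ℝ, eval ![x, y, 1] F = (p.eval ((x : ℂ) + y * Complex.I)).re := by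
    intro x y
    rw [hF, hpe]
    congr 1
    refine Finset.sum_congr rfl fun j _ => ?_
    simp
  have hzz : ((z.re : ℂ) + z.im * Complex.I) = z := Complex.re_add_im z
  set v : Fin 3 → ℝ := ![z.re, z.im, 1] with hv
  have hv0 : eval v F = 0 := by
    rw [hv, hF1, hzz]
    exact hz
  -- the derivative with respect to `x`
  have k0 : eval v (pderiv 0 F) = 0 := by
    have h1 := hd F v ![1, 0, 0]
    have h2 : HasDerivAt (fun w : ℂ => p.eval (z + w)) (p.derivative.eval z) ((0 : ℝ) : ℂ) := by
      have := p.hasDerivAt (z + ((0 : ℝ) : ℂ))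
      have h3 := HasDerivAt.comp_const_add z ((0 : ℝ) : ℂ) this
      simpa using h3
    have h4 := h2.real_of_complex
    have e : (fun s : ℝ => eval (fun i => v i + s * (![1, 0, 0] : Fin 3 → ℝ) i) F) =
        fun s : ℝ => (p.eval (z + (s : ℂ))).re := by
      funext s
      have e1 : (fun i => v i + s * (![1, 0, 0] : Fin 3 → ℝ) i) = ![z.re + s, z.im, 1] := by
        funext i
        fin_cases i <;> simp [hv]
      rw [e1, hF1]
      congr 2
      push_cast
      linear_combination hzz
    rw [e] at h1
    have h5 := h1.unique h4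
    rw [Fin.sum_univ_three, hp'] at h5
    simpa using h5
  have k1 : eval v (pderiv 1 F) = 0 := by
    have h1 := hd F v ![0, 1, 0]
    have h2 : HasDerivAt (fun w : ℂ => p.eval (z + w * Complex.I))
        (p.derivative.eval z * Complex.I) ((0 : ℝ) : ℂ) := by
      have h3 : HasDerivAt (fun w : ℂ => z + w * Complex.I) Complex.I ((0 : ℝ) : ℂ) := by
        have := ((hasDerivAt_id (((0 : ℝ) : ℂ))).mul_const Complex.I).const_add z
        simpa using this
      have h4 := (p.hasDerivAt (z + ((0 : ℝ) : ℂ) * Complex.I)).comp (((0 : ℝ) : ℂ)) h3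
      have e : z + ((0 : ℝ) : ℂ) * Complex.I = z := by simp
      rw [e] at h4
      exact h4
    have h4 := h2.real_of_complex
    have e : (fun s : ℝ => eval (fun i => v i + s * (![0, 1, 0] : Fin 3 → ℝ) i) F) =
        fun s : ℝ => (p.eval (z + (s : ℂ) * Complex.I)).re := by
      funext s
      have e1 : (fun i => v i + s * (![0, 1, 0] : Fin 3 → ℝ) i) = ![z.re, z.im + s, 1] := by
        funext i
        fin_cases i <;> simp [hv]
      rw [e1, hF1]
      congr 2
      push_cast
      linear_combination hzz
    rw [e] at h1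
    have h5 := h1.unique h4
    rw [Fin.sum_univ_three, hp'] at h5
    simpa using h5
  have k2 : eval v (pderiv 2 F) = 0 := by
    have h1 := hd F v v
    have e : (fun s : ℝ => eval (fun i => v i + s * v i) F) = fun _ : ℝ => (0 : ℝ) := by
      funext s
      have e1 : (fun i => v i + s * v i) = ![(1 + s) * z.re, (1 + s) * z.im, 1 + s] := by
        funext i
        fin_cases i <;> simp [hv] <;> ring
      rw [e1, hF]
      have e2 : (∑ j ∈ Finset.range 9, p.coeff j * ((((1 + s) * z.re : ℝ) : ℂ) +
          (((1 + s) * z.im : ℝ) : ℂ) * Complex.I) ^ j * (((1 + s : ℝ)) : ℂ) ^ (8 - j)) =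
          (((1 + s) ^ 8 : ℝ) : ℂ) * p.eval z := by
        rw [hpe, Finset.mul_sum]
        refine Finset.sum_congr rfl fun j hj => ?_
        have hj8 : j ≤ 8 := by
          have := Finset.mem_range.mp hj
          omega
        have e3 : ((((1 + s) * z.re : ℝ) : ℂ) + (((1 + s) * z.im : ℝ) : ℂ) * Complex.I) =
            ((1 + s : ℝ) : ℂ) * z := by
          conv_rhs => rw [← hzz]
          push_cast
          ring
        have e4 : (((1 + s) ^ 8 : ℝ) : ℂ) = ((1 + s : ℝ) : ℂ) ^ j * ((1 + s : ℝ) : ℂ) ^ (8 - j) := by
          rw [← pow_add, Nat.add_sub_cancel' hj8]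
          push_cast
          ring
        rw [e3, e4, mul_pow]
        ring
      rw [e2, Complex.re_ofReal_mul, hz, mul_zero]
    rw [e] at h1
    have h5 := h1.unique (hasDerivAt_const (0 : ℝ) (0 : ℝ))
    rw [Fin.sum_univ_three, k0, k1] at h5
    have e2 : v 2 = 1 := by simp [hv]
    rw [e2] at h5
    simpa using h5
  have hae : ∀ G : MvPolynomial (Fin 3) ℝ,
      aeval (fun i => ((v i : ℝ) : ℂ)) G = ((eval v G : ℝ) : ℂ) := by
    intro G
    have := MvPolynomial.aeval_algebraMap_apply (R := ℝ) (A := ℝ) (B := ℂ) v G
    simpa [Function.comp_def, MvPolynomial.aeval_def, MvPolynomial.eval₂_id] using this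
  refine hN (fun i => ((v i : ℝ) : ℂ)) ?_ ⟨?_, ?_⟩
  · intro h
    have := congrFun h 2
    simp [hv] at this
  · rw [hae, hv0]
    simp
  · intro i
    rw [hae]
    fin_cases i
    · simpa using k0
    · simpa using k1
    · simpa using k2

end Pool.Agent.L7h99.HO
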